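import Pool.Agent.X26.LF.Stm

/-! Part LF_BAD (helper14, second version). -/

set_option autoImplicit false

namespace Pool.Agent.X14.LF

open Finset Pool.Agent.X26.LF

open Classical in
lemma one (hC : S_CNT) {m p N : ℕ} [Fact p.Prime] (hm : 1 ≤ m) (u v : Fin m → ℤ) (A : Finset (ZMod p)) (s : ZMod p)
    (hNP : NP u v p) (hF : Free v p A) (ι : Fin m ↪ Fin N) (K L : Finset (Fin m)) (a : Fin m → ZMod p)
    (κ : Fin m → Fin N) (ha : ∀ k ∈ K, a k ∈ A) :
    p ^ 2 * (univ.filter fun x : Fin N → ZMod p => ∑ j, (u j : ZMod p) * x (ι j) = s ∧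
      ∑ k ∈ K, (v k : ZMod p) * a k + ∑ k ∈ L, (v k : ZMod p) * x (κ k) = 1).card ≤ p ^ N := by
  obtain ⟨c, hc⟩ : ∃ c : Fin N → ZMod p, c = fun i => ∑ j, if ι j = i then (u j : ZMod p) else 0 := ⟨_, rfl⟩
  obtain ⟨d, hd⟩ : ∃ d : Fin N → ZMod p, d = fun i => ∑ k ∈ L, if κ k = i then (v k : ZMod p) else 0 := ⟨_, rfl⟩
  have hcx : ∀ x : Fin N → ZMod p, ∑ i, c i * x i = ∑ j, (u j : ZMod p) * x (ι j) := by
    intro x
    rw [hc]
    simp only [Finset.sum_mul]
    rw [Finset.sum_comm]
    refine Finset.sum_congr rfl fun j _ => ?_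
    simp [ite_mul]
  have hdx : ∀ x : Fin N → ZMod p, ∑ i, d i * x i = ∑ k ∈ L, (v k : ZMod p) * x (κ k) := by
    intro x
    rw [hd]
    simp only [Finset.sum_mul]
    rw [Finset.sum_comm]
    refine Finset.sum_congr rfl fun j _ => ?_
    simp [ite_mul]
  have hci : ∀ j, c (ι j) = u j := by
    intro j
    rw [hc]
    simp only [EmbeddingLike.apply_eq_iff_eq]
    simp
  have hc0 : c ≠ 0 := by
    intro h
    have := hNP.1 ⟨0, hm⟩
    rw [← hci, h] at this
    exact this rfl
  by_cases hl : ∃ l, d = fun i => l * c i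
  · obtain ⟨l, hl⟩ := hl
    by_cases hl0 : l = 0
    · rw [Finset.filter_false_of_mem]
      · simp
      · intro x _ ⟨_, hx⟩
        rw [← hdx, hl, hl0] at hx
        simp only [zero_mul, Finset.sum_const_zero, add_zero] at hx
        exact hF K a ha hx
    · exfalso
      have h1 : ∀ j, ∃ k ∈ L, κ k = ι j := by
        intro j
        by_contra hcon
        push Not at hcon
        have h2 : d (ι j) = 0 := by
          rw [hd]
          refine Finset.sum_eq_zero fun k hk => ?_
          rw [if_neg (hcon k hk)]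
        have h3 : d (ι j) = l * c (ι j) := by rw [hl]
        rw [h2, hci] at h3
        exact (mul_ne_zero hl0 (hNP.1 j)) h3.symm
      choose τ hτL hτ using h1
      have hinj : Function.Injective τ := by
        intro j j' h
        exact ι.injective (by rw [← hτ, ← hτ, h])
      have hbij : Function.Bijective τ := Finite.injective_iff_bijective.mp hinj
      have hval : ∀ j, (v (τ j) : ZMod p) = l * u j := by
        intro j
        have h3 : d (ι j) = l * c (ι j) := by rw [hl]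
        rw [hci] at h3
        rw [← h3, hd]
        simp only
        rw [Finset.sum_eq_single (τ j)]
        · rw [if_pos (hτ j)]
        · intro k hk hne
          rw [if_neg]
          intro hk2
          obtain ⟨j', rfl⟩ := hbij.2 k
          rw [hτ] at hk2
          exact hne (by rw [ι.injective hk2])
        · intro h
          exact absurd (hτL j) h
      refine hNP.2 (Equiv.ofBijective τ hbij).symm l fun i => ?_
      obtain ⟨j, rfl⟩ := hbij.2 i
      rw [hval]
      congr 2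
      have : (Equiv.ofBijective τ hbij).symm (τ j) = j := by
        rw [Equiv.symm_apply_eq]; rfl
      rw [this]
  · have h := (hC p N c d s (1 - ∑ k ∈ K, (v k : ZMod p) * a k) hc0).2 hl
    refine le_of_eq ?_
    rw [← h]
    congr 2
    ext x
    simp only [Finset.mem_filter, Finset.mem_univ, true_and]
    rw [hcx, hdx]
    constructor
    · rintro ⟨h1, h2⟩
      exact ⟨h1, by rw [← h2]; ring⟩
    · rintro ⟨h1, h2⟩
      exact ⟨h1, by rw [h2]; ring⟩

/-- the value at a position -/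
def gA {p N : ℕ} {A : Finset (ZMod p)} : (A ⊕ Fin N) → ZMod p
  | Sum.inl x => x.1
  | Sum.inr _ => 0

/-- the index at a position -/
def gK {p N : ℕ} {A : Finset (ZMod p)} (i₀ : Fin N) : (A ⊕ Fin N) → Fin N
  | Sum.inl _ => i₀
  | Sum.inr i => i

open Classical in
theorem t_BAD : S_BAD := by
  intro hC m p N _ u v A s hm hNP hF
  obtain ⟨m', rfl⟩ : ∃ m', m = m' + 1 := ⟨m - 1, by omega⟩
  let Γ : Type := (Fin (m' + 1) ↪ Fin N) × Fin (m' + 1) × Fin (m' + 1) × Finset (Fin (m' + 1)) ×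
    Finset (Fin (m' + 1)) × (Fin m' → (A ⊕ Fin N))
  let W : Γ → Fin (m' + 1) → (A ⊕ Fin N) := fun γ =>
    Fin.insertNth (α := fun _ => (A ⊕ Fin N)) γ.2.2.1 (Sum.inr (γ.1 γ.2.1)) γ.2.2.2.2.2
  let S : Γ → Finset (Fin N → ZMod p) := fun γ => univ.filter fun x =>
    (∀ k ∈ γ.2.2.2.1, gA (W γ k) ∈ A) ∧ (∑ j, (u j : ZMod p) * x (γ.1 j) = s ∧
      ∑ k ∈ γ.2.2.2.1, (v k : ZMod p) * gA (W γ k) +
        ∑ k ∈ γ.2.2.2.2.1, (v k : ZMod p) * x (gK (γ.1 γ.2.1) (W γ k)) = 1)
  have hS : ∀ γ, p ^ 2 * (S γ).card ≤ p ^ N := by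
    intro γ
    by_cases h : ∀ k ∈ γ.2.2.2.1, gA (W γ k) ∈ A
    · have := one hC (by omega) u v A s hNP hF γ.1 γ.2.2.2.1 γ.2.2.2.2.1 (fun k => gA (W γ k))
        (fun k => gK (γ.1 γ.2.1) (W γ k)) h
      refine le_trans (Nat.mul_le_mul_left _ (Finset.card_le_card ?_)) this
      intro x hx
      rw [Finset.mem_filter] at hx ⊢
      exact ⟨hx.1, hx.2.2⟩
    · have : S γ = ∅ := by
        refine Finset.filter_false_of_mem fun x _ hx => h hx.1
      rw [this]
      simp
  have hsub : (univ.filter fun x : Fin N → ZMod p => ∃ ι : Fin (m' + 1) ↪ Fin N,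
    ∑ j, (u j : ZMod p) * x (ι j) = s ∧ ∃ j, Bad v p A x (ι j)) ⊆ (univ : Finset Γ).biUnion S := by
    intro x hx
    rw [Finset.mem_filter] at hx
    obtain ⟨_, ι, hs, j, K, L, a, κ, hKL, ha, ⟨k₀, hk₀, hκ⟩, hrel⟩ := hx
    rw [Finset.mem_biUnion]
    let w : Fin m' → (A ⊕ Fin N) := fun i =>
      if h : k₀.succAbove i ∈ K then Sum.inl ⟨a (k₀.succAbove i), ha _ h⟩ else Sum.inr (κ (k₀.succAbove i))
    let γ : Γ := (ι, j, k₀, K, L, w)
    have hWK : ∀ k, ∀ hk : k ∈ K, W γ k = Sum.inl ⟨a k, ha k hk⟩ := by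
      intro k hk
      have hne : k ≠ k₀ := by
        rintro rfl
        exact (Finset.disjoint_left.mp hKL) hk hk₀
      obtain ⟨i, rfl⟩ := Fin.exists_succAbove_eq hne
      change Fin.insertNth (α := fun _ => (A ⊕ Fin N)) k₀ (Sum.inr (ι j)) w (k₀.succAbove i) = _
      rw [Fin.insertNth_apply_succAbove]
      exact dif_pos hk
    have hWL : ∀ k ∈ L, W γ k = Sum.inr (κ k) := by
      intro k hk
      by_cases hne : k = k₀
      · subst hne
        change Fin.insertNth (α := fun _ => (A ⊕ Fin N)) k (Sum.inr (ι j)) w k = _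
        rw [Fin.insertNth_apply_same, hκ]
      · obtain ⟨i, rfl⟩ := Fin.exists_succAbove_eq hne
        change Fin.insertNth (α := fun _ => (A ⊕ Fin N)) k₀ (Sum.inr (ι j)) w (k₀.succAbove i) = _
        rw [Fin.insertNth_apply_succAbove]
        exact dif_neg (fun h => (Finset.disjoint_left.mp hKL) h hk)
    refine ⟨γ, Finset.mem_univ _, ?_⟩
    rw [Finset.mem_filter]
    refine ⟨Finset.mem_univ _, ?_, hs, ?_⟩
    · intro k hk
      rw [hWK k hk]
      exact ha k hk
    · rw [← hrel]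
      congr 1
      · refine Finset.sum_congr rfl fun k hk => ?_
        rw [hWK k hk]
        rfl
      · refine Finset.sum_congr rfl fun k hk => ?_
        rw [hWL k hk]
        rfl
  have hcard : Fintype.card Γ = N.descFactorial (m' + 1) * ((m' + 1) * ((m' + 1) * (2 ^ (m' + 1) *
      (2 ^ (m' + 1) * (A.card + N) ^ m')))) := by
    simp only [Γ, Fintype.card_prod, Fintype.card_embedding_eq, Fintype.card_fin, Fintype.card_finset,
      Fintype.card_fun, Fintype.card_sum, Fintype.card_coe]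
  calc p ^ 2 * _ ≤ p ^ 2 * ((univ : Finset Γ).biUnion S).card :=
        Nat.mul_le_mul_left _ (Finset.card_le_card hsub)
    _ ≤ p ^ 2 * ∑ γ : Γ, (S γ).card := Nat.mul_le_mul_left _ Finset.card_biUnion_le
    _ = ∑ γ : Γ, p ^ 2 * (S γ).card := by rw [Finset.mul_sum]
    _ ≤ ∑ γ : Γ, p ^ N := Finset.sum_le_sum fun γ _ => hS γ
    _ = Fintype.card Γ * p ^ N := by rw [Finset.sum_const, Finset.card_univ, smul_eq_mul]
    _ ≤ _ := by
        refine Nat.mul_le_mul_right _ ?_
        rw [hcard]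
        have h1 : N.descFactorial (m' + 1) ≤ (A.card + N) ^ (m' + 1) :=
          (Nat.descFactorial_le_pow _ _).trans (Nat.pow_le_pow_left (by omega) _)
        have h2 : 2 * (m' + 1) - 1 = (m' + 1) + m' := by omega
        have h3 : (4 : ℕ) ^ (m' + 1) = 2 ^ (m' + 1) * 2 ^ (m' + 1) := by
          rw [← mul_pow]; norm_num
        rw [h2, pow_add, h3]
        calc _ ≤ (A.card + N) ^ (m' + 1) * ((m' + 1) * ((m' + 1) * (2 ^ (m' + 1) *
              (2 ^ (m' + 1) * (A.card + N) ^ m')))) := Nat.mul_le_mul_right _ h1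
          _ = _ := by ring

end Pool.Agent.X14.LF
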